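import Pool.Agent.KRN.FNN

/-!
# Linear-vertex kernels for d-Hitting-Set: deterministic kernelizations with advice

For every `d ≥ 3` there is a deterministic polynomial time kernelization for `p-d-Hitting-Set`, with an advice string which
depends only on `k` and has polynomial length, whose kernels have at most `C (k + 1) ^ (1 + 1 / d) (1 + log (k + 1)) ^ C`
vertices.
-/

set_option autoImplicit false

namespace Pool.Agent.Results.MP_595d8c_lc.AdviceKernel

open KRN

/-- Deterministic kernels with polynomial advice and `k ^ (1 + 1 / d)` vertices up to logarithmic factors. -/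
theorem result (d : ℕ) (hd : 3 ≤ d) :
    ∃ (C : ℕ) (a : ℕ → List ℕ) (K : Inst × List ℕ → Inst),
      IsAdviceKernel d (fun k => (C : ℝ) * ((k : ℝ) + 1) ^ (1 + 1 / (d : ℝ)) * (1 + Real.log ((k : ℝ) + 1)) ^ C) a K := by
  obtain ⟨C, hC⟩ := KRN.advice d hd
  exact ⟨C, advN d, kernN d, hC⟩

end Pool.Agent.Results.MP_595d8c_lc.AdviceKernel
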