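import Pool.Agent.KRN.FND

/-!
# Linear-vertex kernels for d-Hitting-Set: deterministic kernelizations

For all `d ≥ 3` and `s ≥ 2` there is a (deterministic) polynomial time kernelization for `p-d-Hitting-Set` whose kernels have
at most `C (k + 1) ^ (s / (s - 1) + (2 s + 2) / d) (1 + log (k + 1)) ^ C` vertices.  For large `d` and a suitable `s` the
exponent is arbitrarily close to `1`.
-/

set_option autoImplicit false

namespace Pool.Agent.Results.MP_595d8c_lc.DetKernel

open KRN

/-- Deterministic kernels; the exponent tends to `1` when `d` tends to infinity. -/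
theorem result (d s : ℕ) (hd : 3 ≤ d) (hs : 2 ≤ s) :
    ∃ (C : ℕ) (K : Inst → Inst),
      IsKernel d (fun k => (C : ℝ) * ((k : ℝ) + 1) ^ ((s : ℝ) / ((s : ℝ) - 1) + (2 * (s : ℝ) + 2) / (d : ℝ)) *
        (1 + Real.log ((k : ℝ) + 1)) ^ C) K := by
  obtain ⟨C, hC⟩ := KRN.deterministic d s hd hs
  exact ⟨C, kernD d s, hC⟩

end Pool.Agent.Results.MP_595d8c_lc.DetKernel
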