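import Pool.Agent.KRN.DSJ

/-!
# Linear-vertex kernels for d-Hitting-Set: deterministic disjunctive kernelizations

For all `d ≥ 3` and `s ≥ 2` there is a deterministic polynomial time algorithm which maps every instance of
`p-d-Hitting-Set` to a list of instances, of total size polynomial in `k`, each with at most
`C (k + 1) ^ (s / (s - 1)) (1 + log (k + 1)) ^ C` vertices, such that the given instance is a yes-instance if and only if one
of the instances of the list is.
-/

set_option autoImplicit false

namespace Pool.Agent.Results.MP_595d8c_lc.DisjunctiveKernel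

open KRN

/-- Deterministic disjunctive kernels with nearly linearly many vertices, for every `d ≥ 3`. -/
theorem result (d s : ℕ) (hd : 3 ≤ d) (hs : 2 ≤ s) :
    ∃ (C : ℕ) (K : Inst → List Inst),
      IsDisjKernel d (fun k => (C : ℝ) * ((k : ℝ) + 1) ^ ((s : ℝ) / ((s : ℝ) - 1)) * (1 + Real.log ((k : ℝ) + 1)) ^ C)
        K := by
  obtain ⟨C, hC⟩ := KRN.disjunctive d s hd hs
  exact ⟨C, kernS d s, hC⟩

end Pool.Agent.Results.MP_595d8c_lc.DisjunctiveKernel
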