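import Pool.Agent.KRN.FNR

/-!
# Linear-vertex kernels for d-Hitting-Set: a randomized kernelization with `O(k polylog k)` vertices

For every `d ≥ 3` there is a randomized polynomial time kernelization for `p-d-Hitting-Set` whose kernels have at most
`C (k + 1) (1 + log (k + 1)) ^ C` vertices.  The error is one-sided: no-instances are always mapped to no-instances, and
yes-instances are mapped to yes-instances with probability at least `1 - 1 / (k + 1)`.
-/

set_option autoImplicit false

namespace Pool.Agent.Results.MP_595d8c_lc.RandomKernel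

open KRN

/-- Randomized kernels with `O(k polylog k)` vertices. -/
theorem result (d : ℕ) (hd : 3 ≤ d) :
    ∃ (C : ℕ) (ℓ : Inst → ℕ) (K : Inst × List ℕ → Inst),
      IsRandKernel d (fun k => (C : ℝ) * ((k : ℝ) + 1) * (1 + Real.log ((k : ℝ) + 1)) ^ C) ℓ K := by
  obtain ⟨C, hC⟩ := KRN.randomized d hd
  exact ⟨C, ellR d, kernR d, hC⟩

end Pool.Agent.Results.MP_595d8c_lc.RandomKernel
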